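import Pool.Agent.X302.TR.Stm

/-! Project TR, part ELL (helper219). -/

set_option autoImplicit false

namespace Pool.Agent.X219.TR

open Filter Topology Pool.Agent.X302.TR

variable {n : ℕ}

theorem dot_add (m : Fin n → ℤ) (u v : V n) : dot m (u + v) = dot m u + dot m v := by
  simp [dot, mul_add, Finset.sum_add_distrib]

theorem dot_smul (m : Fin n → ℤ) (s : ℝ) (v : V n) : dot m (s • v) = s * dot m v := by
  simp only [dot, Pi.smul_apply, smul_eq_mul, Finset.mul_sum]
  exact Finset.sum_congr rfl fun j _ => by ring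

theorem T_exp (F : Cub n) (e u : V n) (s : ℝ) :
    F.T (e + s • u) (e + s • u) (e + s • u)
      = F.T e e e + 3 * s * F.T e e u + 3 * s ^ 2 * F.T e u u + s ^ 3 * F.T u u u := by
  have h1 : F.T e u e = F.T e e u := F.T2 e u e
  have h2 : F.T u e e = F.T e e u := (F.T1 u e e).trans h1
  have h3 : F.T u e u = F.T e u u := F.T1 u e u
  have h4 : F.T u u e = F.T e u u := (F.T2 u u e).trans h3
  simp only [map_add, map_smul, LinearMap.add_apply, LinearMap.smul_apply, smul_eq_mul]
  rw [h1, h2, h3, h4]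
  ring

theorem T_exp' (F : Cub n) (e u : V n) (s : ℝ) :
    F.T (s • e + u) (s • e + u) (s • e + u)
      = s ^ 3 * F.T e e e + 3 * s ^ 2 * F.T e e u + 3 * s * F.T e u u + F.T u u u := by
  have h1 : F.T e u e = F.T e e u := F.T2 e u e
  have h2 : F.T u e e = F.T e e u := (F.T1 u e e).trans h1
  have h3 : F.T u e u = F.T e u u := F.T1 u e u
  have h4 : F.T u u e = F.T e u u := (F.T2 u u e).trans h3
  simp only [map_add, map_smul, LinearMap.add_apply, LinearMap.smul_apply, smul_eq_mul]
  rw [h1, h2, h3, h4]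
  ring

theorem real1 (A B D : ℝ) (h : ∀ s : ℝ, 0 < s → 0 ≤ 3 * s * A + 3 * s ^ 2 * B + s ^ 3 * D) : 0 ≤ A := by
  by_contra hA
  push Not at hA
  set δ := -A with hδ
  have hδ0 : 0 < δ := by linarith
  set K := |B| + |D| + δ + 1 with hK
  have hK0 : 0 < K := by positivity
  set s := δ / K with hs
  have hs0 : 0 < s := by positivity
  have hs1 : s ≤ 1 := by
    rw [hs, div_le_one hK0]
    have := abs_nonneg B
    have := abs_nonneg D
    linarith
  have h1 := h s hs0
  have hB := le_abs_self B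
  have hDD := le_abs_self D
  have h2 : 0 ≤ s * (3 * A + 3 * s * B + s ^ 2 * D) := by nlinarith
  have h3 : 0 ≤ 3 * A + 3 * s * B + s ^ 2 * D := by
    by_contra hc
    push Not at hc
    nlinarith
  have h4 : 3 * s * B ≤ 3 * s * |B| := by nlinarith
  have h5 : s ^ 2 * D ≤ s * |D| := by
    calc s ^ 2 * D ≤ s ^ 2 * |D| := by nlinarith [sq_nonneg s]
      _ ≤ s * |D| := by nlinarith [mul_nonneg hs0.le (abs_nonneg D), mul_nonneg (mul_nonneg hs0.le (abs_nonneg D)) (sub_nonneg.2 hs1)]
  have h6 : s * K = δ := by rw [hs]; field_simp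
  have h7 : s * |D| ≤ 3 * (s * |D|) := by nlinarith [mul_nonneg hs0.le (abs_nonneg D)]
  have h8 : 3 * (s * |B|) + 3 * (s * |D|) + 3 * (s * (δ + 1)) = 3 * δ := by
    calc _ = 3 * (s * K) := by rw [hK]; ring
      _ = 3 * δ := by rw [h6]
  have h9 : 0 < s * (δ + 1) := by positivity
  nlinarith

theorem real2 (A D M : ℝ) (h : ∀ s : ℝ, M ≤ s → 0 ≤ 3 * s * A + D) : 0 ≤ A := by
  by_contra hA
  push Not at hA
  have h1 := h (max M ((|D| + 1) / (-A))) (le_max_left _ _)
  have h2 : (|D| + 1) / (-A) ≤ max M ((|D| + 1) / (-A)) := le_max_right _ _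
  set s := max M ((|D| + 1) / (-A))
  have h3 : |D| + 1 ≤ s * (-A) := (div_le_iff₀ (by linarith)).1 h2
  have := le_abs_self D
  have := abs_nonneg D
  nlinarith

theorem cone_nhds {p : ℕ} (a : Fin p → Fin n → ℤ) (g v : V n) (hg : Rc a g) (hv : v ∈ H g) :
    ∀ᶠ η in 𝓝 (0 : ℝ), Rc a (g + η • v) := by
  have : ∀ i : Fin p, ∀ᶠ η in 𝓝 (0 : ℝ), dot (a i) (g + η • v) ≤ 0 := by
    intro i
    rcases eq_or_lt_of_le (hg i) with h0 | h0
    · refine Filter.Eventually.of_forall fun η => ?_
      rw [dot_add, dot_smul, h0, hv (a i) h0]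
      simp
    · have hc : ContinuousAt (fun η : ℝ => dot (a i) g + η * dot (a i) v) 0 := by fun_prop
      have hl : (fun η : ℝ => dot (a i) g + η * dot (a i) v) 0 < 0 := by simpa using h0
      filter_upwards [hc.eventually_lt continuousAt_const hl] with η hη
      rw [dot_add, dot_smul]
      exact hη.le
  exact (Filter.eventually_all.2 this)

theorem t_ELL : Pool.Agent.X302.TR.S_ELL := by
  intro n p a F hT e he hee
  have h1 : ∀ u, Rc a u → 0 ≤ F.T e e u := by
    intro u hu
    refine real1 _ (F.T e u u) (F.T u u u) fun s hs => ?_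
    have h2 : Rc a (e + s • u) := by
      intro i
      rw [dot_add, dot_smul]
      have := he i
      have := hu i
      nlinarith
    have h3 := hT _ h2
    rw [T_exp, hee] at h3
    linarith
  refine ⟨h1, ?_, ?_⟩
  · intro g hg hgg v hv
    obtain ⟨ε, hε, hh⟩ := Metric.eventually_nhds_iff.1 (cone_nhds a g v hg hv)
    have e1 := h1 _ (hh (y := ε / 2) (by rw [Real.dist_eq, sub_zero, abs_of_pos (by positivity)]; linarith))
    have e2 := h1 _ (hh (y := -(ε / 2)) (by rw [Real.dist_eq, sub_zero, abs_neg, abs_of_pos (by positivity)]; linarith))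
    rw [map_add, map_smul, hgg, smul_eq_mul] at e1 e2
    nlinarith
  · rintro w ⟨M, hM⟩ hw
    refine real2 _ (F.T w w w) M fun s hs => ?_
    have h3 := hT _ (hM s hs)
    rw [T_exp', hee, hw] at h3
    linarith

end Pool.Agent.X219.TR
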